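import Pool.Agent.Mg.F4d0c14.G9b0c6d

/-!
Breuil-Schneider conjecture for `GL(n, F)`, `F / ℚ_p` finite: an irreducible locally algebraic
representation whose smooth part is induced from a compactly induced representation of a Levi
subgroup with three blocks, and which satisfies the Emerton condition, has an invariant norm;
for `n ≠ 3` the smooth part is assumed isomorphic to the one built from the transposed type.
-/

namespace Pool.Agent.Results.MP_4d0c14_nt.ThreeBlocks

open Pool.Agent.MP_4d0c14_b CategoryTheory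

theorem result (p : ℕ) [Fact p.Prime] (n m : ℕ) (F E : Type)
    [NontriviallyNormedField F] [IsUltrametricDist F] [NormedAlgebra ℚ_[p] F]
    [FiniteDimensional ℚ_[p] F]
    [NontriviallyNormedField E] [NormedAlgebra ℚ_[p] E] [CompleteSpace E]
    (a : (F →ₐ[ℚ_[p]] E) → Fin n → ℤ) (ha : ∀ σ, Antitone (a σ))
    (D : TypeData n 3 m F E)
    (ϖ : Fˣ) (hϖ : ‖(ϖ : F)‖ < 1) (hmax : ∀ x : F, ‖x‖ < 1 → ‖x‖ ≤ ‖(ϖ : F)‖)
    (hcent : ‖((D.omega fun _ => ϖ : Eˣ) : E)‖ * ‖(ϖ : F)‖ ^ (∑ σ, ∑ i, a σ i) = 1)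
    (hE : ∀ I, Emerton D a ϖ (Nat.card (IsLocalRing.ResidueField
      (NormedField.valuation (K := F)).valuationSubring)) I)
    (hirr : (indRep D).ρ.IsIrreducible)
    (hdual : n = 3 ∨ Nonempty (indRep D ≅ indRep D.transpose)) :
    HasInvariantNorm (algRep (fun σ : F →ₐ[ℚ_[p]] E => σ.toRingHom) a) (indRep D) :=
  three_blocks p a ha D ϖ hϖ hmax hcent hE hirr
    (hdual.elim (fun h => by subst h; exact D.iso_transpose) id)

end Pool.Agent.Results.MP_4d0c14_nt.ThreeBlocks
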